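import Mathlib
import Pool.Agent.Helper99.BK.Stmts

/-! Module BEZ of MP_9d7cd1_nt: the inequality of Bezout in the plane. -/

set_option autoImplicit false

namespace Pool.Helper99.BK

open MvPolynomial

theorem bez_finrank_map (F : MvPolynomial (Fin 2) ℂ) (hF : F ≠ 0)
    (V : Submodule ℂ (MvPolynomial (Fin 2) ℂ)) :
    Module.finrank ℂ (V.map (LinearMap.mulLeft ℂ F)) = Module.finrank ℂ V := by
  have hinj : Function.Injective (LinearMap.mulLeft ℂ F) := fun a b h => mul_left_cancel₀ hF h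
  exact (Submodule.equivMapOfInjective (LinearMap.mulLeft ℂ F) hinj V).finrank_eq.symm

theorem st_BEZ (h1 : ST_DIM) (h2 : ST_SEP) : ST_BEZ := by
  intro F Q hF hFQ S hS
  classical
  have hF0 : F ≠ 0 := hF.ne_zero
  have hQ0 : Q ≠ 0 := by
    intro h; exact hFQ (h ▸ dvd_zero F)
  have hprime : Prime F := hF.prime
  obtain ⟨f, hf⟩ : ∃ f, f = F.totalDegree := ⟨_, rfl⟩
  obtain ⟨g, hg⟩ : ∃ g, g = Q.totalDegree := ⟨_, rfl⟩
  obtain ⟨n, hn⟩ : ∃ n, n = S.card := ⟨_, rfl⟩
  rw [← hf, ← hg, ← hn]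
  -- spaces
  let V : ℕ → Submodule ℂ (MvPolynomial (Fin 2) ℂ) := fun k => restrictTotalDegree (Fin 2) ℂ k
  have hV : ∀ k P, P ∈ V k ↔ P.totalDegree ≤ k := fun k P => mem_restrictTotalDegree (Fin 2) k P
  have hfin : ∀ k, Module.Finite ℂ (V k) := fun k => (h1 k).1
  have hdim : ∀ k, 2 * Module.finrank ℂ (V k) = (k + 1) * (k + 2) := fun k => (h1 k).2
  have := hfin
  obtain ⟨m, hm⟩ : ∃ m, m = f + g + n := ⟨_, rfl⟩
  let W1 := (V (g + n)).map (LinearMap.mulLeft ℂ F)
  let W2 := (V (f + n)).map (LinearMap.mulLeft ℂ Q)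
  let W3 := (V n).map (LinearMap.mulLeft ℂ (F * Q))
  have hW12 : W1 ⊓ W2 ≤ W3 := by
    rintro P ⟨⟨A, hA, hA2⟩, ⟨B, hB, hB2⟩⟩
    rw [LinearMap.mulLeft_apply] at hA2 hB2
    have h3 : F ∣ Q * B := by rw [hB2, ← hA2]; exact dvd_mul_right F A
    have h4 : F ∣ B := (hprime.dvd_or_dvd h3).resolve_left hFQ
    obtain ⟨D, hD⟩ := h4
    refine ⟨D, ?_, ?_⟩
    · rw [SetLike.mem_coe, hV]
      by_cases hD0 : D = 0
      · rw [hD0]; simp
      · have h5 : B.totalDegree = F.totalDegree + D.totalDegree := by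
          rw [hD, totalDegree_mul_of_isDomain hF0 hD0]
        rw [SetLike.mem_coe, hV, h5, ← hf] at hB
        omega
    · rw [LinearMap.mulLeft_apply, ← hB2, hD]; ring
  -- evaluation
  let ev : MvPolynomial (Fin 2) ℂ →ₗ[ℂ] (S → ℂ) :=
    LinearMap.pi (fun s => (aeval (R := ℂ) s.1 : MvPolynomial (Fin 2) ℂ →ₐ[ℂ] ℂ).toLinearMap)
  have hev : ∀ P s, ev P s = eval s.1 P := by
    intro P s
    simp [ev, aeval_eq_eval]
  have hW1 : W1 ≤ V m := by
    rintro P ⟨A, hA, rfl⟩
    rw [SetLike.mem_coe, hV] at hA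
    rw [hV, LinearMap.mulLeft_apply]
    have := totalDegree_mul F A
    omega
  have hW2 : W2 ≤ V m := by
    rintro P ⟨A, hA, rfl⟩
    rw [SetLike.mem_coe, hV] at hA
    rw [hV, LinearMap.mulLeft_apply]
    have := totalDegree_mul Q A
    omega
  have hsurj : Function.Surjective (ev.domRestrict (V m)) := by
    intro y
    have h3 := fun s : S => h2 S s.1 s.2
    choose P hP1 hP2 hP3 using h3
    refine ⟨⟨∑ s : S, C (y s) * P s, ?_⟩, ?_⟩
    · rw [hV]
      refine totalDegree_finsetSum_le (fun s _ => ?_)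
      refine (totalDegree_mul _ _).trans ?_
      rw [totalDegree_C, zero_add]
      have := hP1 s
      omega
    · funext s
      rw [LinearMap.domRestrict_apply, hev, map_sum, Finset.sum_eq_single s]
      · rw [map_mul, eval_C, hP2, mul_one]
      · intro t _ hts
        rw [map_mul, hP3 t s.1 s.2 (fun h => hts (Subtype.ext h.symm)), mul_zero]
      · intro h; exact absurd (Finset.mem_univ _) h
  have hker : (W1 ⊔ W2).comap (V m).subtype ≤ LinearMap.ker (ev.domRestrict (V m)) := by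
    intro P hP
    rw [Submodule.mem_comap] at hP
    rw [LinearMap.mem_ker]
    funext s
    rw [LinearMap.domRestrict_apply, hev, Pi.zero_apply]
    obtain ⟨P1, hP1, P2, hP2, hP12⟩ := Submodule.mem_sup.mp hP
    obtain ⟨A, _, rfl⟩ := hP1
    obtain ⟨B, _, rfl⟩ := hP2
    have h3 : (P : MvPolynomial (Fin 2) ℂ) = F * A + Q * B := by
      rw [LinearMap.mulLeft_apply, LinearMap.mulLeft_apply] at hP12
      exact hP12.symm
    rw [h3, map_add, map_mul, map_mul, (hS s.1 s.2).1, (hS s.1 s.2).2]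
    ring
  have e1 : Module.finrank ℂ W1 = Module.finrank ℂ (V (g + n)) := bez_finrank_map F hF0 _
  have e2 : Module.finrank ℂ W2 = Module.finrank ℂ (V (f + n)) := bez_finrank_map Q hQ0 _
  have e3 : Module.finrank ℂ W3 = Module.finrank ℂ (V n) :=
    bez_finrank_map (F * Q) (mul_ne_zero hF0 hQ0) _
  have : Module.Finite ℂ W1 := inferInstanceAs (Module.Finite ℂ ((V (g + n)).map (LinearMap.mulLeft ℂ F)))
  have : Module.Finite ℂ W2 := inferInstanceAs (Module.Finite ℂ ((V (f + n)).map (LinearMap.mulLeft ℂ Q)))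
  have : Module.Finite ℂ W3 := inferInstanceAs (Module.Finite ℂ ((V n).map (LinearMap.mulLeft ℂ (F * Q))))
  have e4 := Submodule.finrank_sup_add_finrank_inf_eq W1 W2
  have e5 : Module.finrank ℂ (W1 ⊓ W2 : Submodule ℂ (MvPolynomial (Fin 2) ℂ)) ≤ Module.finrank ℂ W3 :=
    Submodule.finrank_mono hW12
  have e6 : Module.finrank ℂ ((W1 ⊔ W2).comap (V m).subtype) =
      Module.finrank ℂ (W1 ⊔ W2 : Submodule ℂ (MvPolynomial (Fin 2) ℂ)) :=
    (Submodule.comapSubtypeEquivOfLe (sup_le hW1 hW2)).finrank_eq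
  have e7 := Submodule.finrank_mono hker
  have e8 := LinearMap.finrank_range_add_finrank_ker (ev.domRestrict (V m))
  rw [LinearMap.range_eq_top.mpr hsurj, finrank_top] at e8
  have e9 : Module.finrank ℂ (S → ℂ) = n := by
    rw [Module.finrank_fintype_fun_eq_card, Fintype.card_coe, hn]
  have d1 := hdim m
  have d2 := hdim (g + n)
  have d3 := hdim (f + n)
  have d4 := hdim n
  rw [hm] at d1
  rw [e9] at e8
  have hkey : Module.finrank ℂ (V (g + n)) + Module.finrank ℂ (V (f + n)) + n ≤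
      Module.finrank ℂ (V m) + Module.finrank ℂ (V n) := by omega
  rw [hm] at hkey
  nlinarith [hkey, d1, d2, d3, d4]

end Pool.Helper99.BK
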