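import Mathlib
import Pool.Agent.Helper99.BK.Stmts

/-! Module ZE2a of MP_9d7cd1_nt: the zero estimate, elimination of the exponential variable. -/

set_option autoImplicit false

namespace Pool.Helper99.BK

open Polynomial

theorem ze2a_coeff_prod {ι : Type} (s : Finset ι) (f : ι → ℂ[X]) (e : ι → ℕ)
    (h : ∀ i ∈ s, (f i).natDegree ≤ e i) :
    (∏ i ∈ s, f i).natDegree ≤ ∑ i ∈ s, e i ∧
      (∏ i ∈ s, f i).coeff (∑ i ∈ s, e i) = ∏ i ∈ s, (f i).coeff (e i) := by
  classical
  induction s using Finset.induction_on with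
  | empty => simp
  | insert a s ha ih =>
    have h1 := ih (fun i hi => h i (Finset.mem_insert_of_mem hi))
    have h2 := h a (Finset.mem_insert_self a s)
    rw [Finset.prod_insert ha, Finset.sum_insert ha, Finset.prod_insert ha]
    refine ⟨(Polynomial.natDegree_mul_le).trans (add_le_add h2 h1.1), ?_⟩
    rw [Polynomial.coeff_mul_add_eq_of_natDegree_le h2 h1.1, h1.2]

theorem ze2a_coeff_det {ι : Type} [Fintype ι] [DecidableEq ι] (M : Matrix ι ι ℂ[X]) (e : ι → ℕ)
    (h : ∀ i j, (M i j).natDegree ≤ e j) :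
    M.det.coeff (∑ j, e j) = (Matrix.of (fun i j => (M i j).coeff (e j))).det := by
  rw [Matrix.det_apply, Matrix.det_apply, Polynomial.finsetSum_coeff]
  refine Finset.sum_congr rfl (fun σ _ => ?_)
  have := (ze2a_coeff_prod Finset.univ (fun i => M (σ i) i) e (fun i _ => h (σ i) i)).2
  rw [Polynomial.coeff_smul, this]
  rfl

/-- leading coefficient of a combination of monic polynomials of different degrees -/
theorem ze2a_lead {J : Type} [Fintype J] (c : J → ℂ) (f : J → ℂ[X]) (e : J → ℕ)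
    (he : Function.Injective e) (hm : ∀ j, (f j).Monic) (hd : ∀ j, (f j).natDegree = e j)
    (j0 : J) (hj : ∀ j, c j ≠ 0 → e j ≤ e j0) :
    (∑ j, C (c j) * f j).natDegree ≤ e j0 ∧ (∑ j, C (c j) * f j).coeff (e j0) = c j0 := by
  classical
  constructor
  · refine Polynomial.natDegree_sum_le_of_forall_le _ _ (fun j _ => ?_)
    by_cases h : c j = 0
    · simp [h]
    · exact (Polynomial.natDegree_C_mul_le _ _).trans ((hd j).le.trans (hj j h))
  · rw [Polynomial.finsetSum_coeff, Finset.sum_eq_single j0]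
    · rw [Polynomial.coeff_C_mul, ← hd j0]
      have := (hm j0).coeff_natDegree
      rw [this, mul_one]
    · intro j _ hne
      rw [Polynomial.coeff_C_mul]
      by_cases h : c j = 0
      · simp [h]
      · have h1 : e j < e j0 := lt_of_le_of_ne (hj j h) (fun h2 => hne (he h2))
        rw [Polynomial.coeff_eq_zero_of_natDegree_lt (by rw [hd j]; exact h1), mul_zero]
    · intro h; exact absurd (Finset.mem_univ _) h

/-- the monomials after the substitution -/
theorem ze2a_mono (K : ℕ) (hK : 0 < K) (a b : ℂ) (j : Fin K × Fin K) :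
    ((X ^ K + C a) ^ (j.1 : ℕ) * (X + C b) ^ (j.2 : ℕ) : ℂ[X]).Monic ∧
    ((X ^ K + C a) ^ (j.1 : ℕ) * (X + C b) ^ (j.2 : ℕ) : ℂ[X]).natDegree =
      K * (j.1 : ℕ) + (j.2 : ℕ) := by
  have h1 : (X ^ K + C a : ℂ[X]).Monic := monic_X_pow_add_C a hK.ne'
  have h2 : (X + C b : ℂ[X]).Monic := monic_X_add_C b
  refine ⟨(h1.pow _).mul (h2.pow _), ?_⟩
  rw [(h1.pow _).natDegree_mul (h2.pow _), h1.natDegree_pow, h2.natDegree_pow,
    natDegree_X_pow_add_C, natDegree_X_add_C]
  ring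

theorem ze2a_inj (K : ℕ) : Function.Injective (fun j : Fin K × Fin K => K * (j.1 : ℕ) + (j.2 : ℕ)) := by
  rintro ⟨a, b⟩ ⟨c, d⟩ h
  simp only at h
  have hb := b.2
  have hd := d.2
  have h1 : (a : ℕ) = c := by
    rcases lt_trichotomy (a : ℕ) c with h2 | h2 | h2
    · exfalso
      have : K * ((a : ℕ) + 1) ≤ K * c := Nat.mul_le_mul_left K h2
      have h3 : K * ((a : ℕ) + 1) = K * a + K := by ring
      omega
    · exact h2
    · exfalso
      have : K * ((c : ℕ) + 1) ≤ K * a := Nat.mul_le_mul_left K h2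
      have h3 : K * ((c : ℕ) + 1) = K * c + K := by ring
      omega
  have h2 : (b : ℕ) = d := by rw [h1] at h; omega
  exact Prod.ext (Fin.ext h1) (Fin.ext h2)

/-- the polynomial with coefficients `c`, translated by `(a, b)` -/
noncomputable def ze2a_P (K : ℕ) (c : Fin K × Fin K → ℂ) (a b : ℂ) : MvPolynomial (Fin 2) ℂ :=
  ∑ j : Fin K × Fin K, MvPolynomial.C (c j) *
    ((MvPolynomial.X 0 + MvPolynomial.C a) ^ (j.1 : ℕ) *
      (MvPolynomial.X 1 + MvPolynomial.C b) ^ (j.2 : ℕ))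

theorem ze2a_P_deg (K : ℕ) (c : Fin K × Fin K → ℂ) (a b : ℂ) :
    (ze2a_P K c a b).totalDegree ≤ 2 * K := by
  unfold ze2a_P
  refine MvPolynomial.totalDegree_finsetSum_le (fun j _ => ?_)
  refine (MvPolynomial.totalDegree_mul _ _).trans ?_
  rw [MvPolynomial.totalDegree_C, zero_add]
  refine (MvPolynomial.totalDegree_mul _ _).trans ?_
  have h1 : ((MvPolynomial.X 0 + MvPolynomial.C a : MvPolynomial (Fin 2) ℂ) ^ (j.1 : ℕ)).totalDegree
      ≤ K := by
    refine (MvPolynomial.totalDegree_pow _ _).trans ?_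
    have : (MvPolynomial.X 0 + MvPolynomial.C a : MvPolynomial (Fin 2) ℂ).totalDegree ≤ 1 := by
      refine (MvPolynomial.totalDegree_add _ _).trans ?_
      rw [MvPolynomial.totalDegree_X, MvPolynomial.totalDegree_C]; simp
    calc _ ≤ (j.1 : ℕ) * 1 := Nat.mul_le_mul_left _ this
      _ ≤ K := by rw [mul_one]; exact j.1.2.le
  have h2 : ((MvPolynomial.X 1 + MvPolynomial.C b : MvPolynomial (Fin 2) ℂ) ^ (j.2 : ℕ)).totalDegree
      ≤ K := by
    refine (MvPolynomial.totalDegree_pow _ _).trans ?_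
    have : (MvPolynomial.X 1 + MvPolynomial.C b : MvPolynomial (Fin 2) ℂ).totalDegree ≤ 1 := by
      refine (MvPolynomial.totalDegree_add _ _).trans ?_
      rw [MvPolynomial.totalDegree_X, MvPolynomial.totalDegree_C]; simp
    calc _ ≤ (j.2 : ℕ) * 1 := Nat.mul_le_mul_left _ this
      _ ≤ K := by rw [mul_one]; exact j.2.2.le
  omega

theorem ze2a_P_eval (K : ℕ) (c : Fin K × Fin K → ℂ) (a b u v : ℂ) :
    MvPolynomial.eval ![u, v] (ze2a_P K c a b) =
      ∑ j : Fin K × Fin K, c j * ((u + a) ^ (j.1 : ℕ) * (v + b) ^ (j.2 : ℕ)) := by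
  simp [ze2a_P]

theorem ze2a_P_map (K : ℕ) (c : Fin K × Fin K → ℂ) (a b : ℂ) :
    MvPolynomial.aeval ![(X : ℂ[X]) ^ K, X] (ze2a_P K c a b) =
      ∑ j : Fin K × Fin K, C (c j) * ((X ^ K + C a) ^ (j.1 : ℕ) * (X + C b) ^ (j.2 : ℕ)) := by
  simp [ze2a_P, Polynomial.algebraMap_eq]

theorem ze2a_det_deg {ι : Type} [Fintype ι] [DecidableEq ι]
    (M : Matrix ι ι (MvPolynomial (Fin 2) ℂ)) (d : ℕ) (h : ∀ i j, (M i j).totalDegree ≤ d) :
    M.det.totalDegree ≤ Fintype.card ι * d := by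
  rw [Matrix.det_apply]
  refine MvPolynomial.totalDegree_finsetSum_le (fun σ _ => ?_)
  have h1 : (∏ i, M (σ i) i).totalDegree ≤ Fintype.card ι * d := by
    refine (MvPolynomial.totalDegree_finsetProd _ _).trans ?_
    calc ∑ i, (M (σ i) i).totalDegree ≤ ∑ _i : ι, d := Finset.sum_le_sum (fun i _ => h _ _)
      _ = Fintype.card ι * d := by simp
  rcases Int.units_eq_one_or (Equiv.Perm.sign σ) with h2 | h2
  · rw [h2, one_smul]; exact h1
  · rw [h2, Units.neg_smul, one_smul, MvPolynomial.totalDegree_neg]; exact h1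

theorem ze2a_swap {K Lc : ℕ} (F : Fin K × Fin K × Fin Lc → ℂ) :
    ∑ j, F j = ∑ l, ∑ j : Fin K × Fin K, F (j.1, j.2, l) := by
  rw [← Fintype.sum_prod_type' (f := fun (l : Fin Lc) (j : Fin K × Fin K) => F (j.1, j.2, l))]
  exact Fintype.sum_equiv
    ⟨fun j => (j.2.2, (j.1, j.2.1)), fun p => (p.2.1, p.2.2, p.1), fun _ => rfl, fun _ => rfl⟩
    _ _ (fun _ => rfl)

theorem ze2a_sub {α β : Type} [Fintype α] [DecidableEq α] [Zero β] [DecidableEq β] (c : α → β)
    (g : α → ℂ) (h : ∀ l, c l = 0 → g l = 0) [Fintype {l : α // c l ≠ 0}] :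
    ∑ l : {l : α // c l ≠ 0}, g l.1 = ∑ l, g l := by
  classical
  rw [← Finset.sum_subtype (Finset.univ.filter (fun l => c l ≠ 0)) (by simp) g]
  refine Finset.sum_filter_of_ne (fun l _ hl => ?_)
  intro h1
  exact hl (h l h1)

theorem st_ZE2a (h : ST_MINOR) : ST_ZE2a := by
  intro G _ _ ζ1 ζ2 η hη0 hη K Lc x hx B1 B hB hL
  classical
  -- K > 0
  obtain ⟨j', hj'⟩ := Function.ne_iff.mp hx
  have hK : 0 < K := lt_of_le_of_lt (Nat.zero_le _) j'.1.2
  -- the non-zero columns
  let c : Fin Lc → Fin K × Fin K → ℂ := fun l j => x (j.1, j.2, l)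
  let ι := {l : Fin Lc // c l ≠ 0}
  -- kernel
  have hker : ∀ y : ι → ℂ, (∀ r : {p : G // p ∈ B1}, ∑ j : ι, η r.1 ^ (j.1 : ℕ) * y j = 0) → y = 0 := by
    intro y hy
    let P : ℂ[X] := ∑ j : ι, C (y j) * X ^ (j.1 : ℕ)
    have hdeg : P.degree < (Lc : ℕ) := by
      refine lt_of_le_of_lt (Polynomial.degree_sum_le _ _) ?_
      rw [Finset.sup_lt_iff (by exact WithBot.bot_lt_coe _)]
      intro j _
      refine lt_of_le_of_lt (Polynomial.degree_C_mul_X_pow_le _ _) ?_
      exact_mod_cast j.1.2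
    have hP : P = 0 := by
      by_contra hP
      have h1 : (B1.image η) ⊆ P.roots.toFinset := by
        intro z hz
        obtain ⟨p, hp, rfl⟩ := Finset.mem_image.mp hz
        rw [Multiset.mem_toFinset, Polynomial.mem_roots hP, Polynomial.IsRoot.def]
        have h2 := hy ⟨p, hp⟩
        simp only [P, Polynomial.eval_finsetSum, Polynomial.eval_mul, Polynomial.eval_C,
          Polynomial.eval_pow, Polynomial.eval_X]
        rw [← h2]
        exact Finset.sum_congr rfl (fun j _ => by ring)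
      have h2 : (B1.image η).card ≤ P.natDegree :=
        (Finset.card_le_card h1).trans ((Multiset.toFinset_card_le _).trans
          (Polynomial.card_roots' P))
      have h3 : P.natDegree < Lc := (Polynomial.natDegree_lt_iff_degree_lt hP).mpr hdeg
      omega
    funext l
    have h1 : P.coeff (l.1 : ℕ) = y l := by
      simp only [P, Polynomial.finsetSum_coeff, Polynomial.coeff_C_mul_X_pow]
      rw [Finset.sum_eq_single l]
      · simp
      · intro b _ hb
        rw [if_neg]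
        intro h2
        exact hb (Subtype.ext (Fin.ext h2.symm))
      · intro h2; exact absurd (Finset.mem_univ _) h2
    rw [← h1, hP]; simp
  obtain ⟨r, hr⟩ := h ℂ {p : G // p ∈ B1} ι (fun p l => η p.1 ^ (l.1 : ℕ)) hker
  -- the degrees
  have hmax : ∀ l : ι, ∃ j0 : Fin K × Fin K, c l.1 j0 ≠ 0 ∧
      ∀ j, c l.1 j ≠ 0 → K * (j.1 : ℕ) + (j.2 : ℕ) ≤ K * (j0.1 : ℕ) + (j0.2 : ℕ) := by
    intro l
    obtain ⟨j1, hj1⟩ := Function.ne_iff.mp l.2
    obtain ⟨j0, hj0, hj0'⟩ := Finset.exists_max_image (Finset.univ.filter (fun j => c l.1 j ≠ 0))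
      (fun j : Fin K × Fin K => K * (j.1 : ℕ) + (j.2 : ℕ))
      ⟨j1, Finset.mem_filter.mpr ⟨Finset.mem_univ _, hj1⟩⟩
    exact ⟨j0, (Finset.mem_filter.mp hj0).2,
      fun j hj => hj0' j (Finset.mem_filter.mpr ⟨Finset.mem_univ _, hj⟩)⟩
  choose j0 hj0 hj0' using hmax
  let M : Matrix ι ι (MvPolynomial (Fin 2) ℂ) := Matrix.of (fun i l =>
    MvPolynomial.C (η (r i).1 ^ (l.1 : ℕ)) * ze2a_P K (c l.1) (ζ1 (r i).1) (ζ2 (r i).1))
  have hdegM : M.det.totalDegree ≤ 2 * K * Lc := by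
    refine (ze2a_det_deg M (2 * K) (fun i j => ?_)).trans ?_
    · refine (MvPolynomial.totalDegree_mul _ _).trans ?_
      rw [MvPolynomial.totalDegree_C, zero_add]
      exact ze2a_P_deg _ _ _ _
    · have : Fintype.card ι ≤ Lc := by
        refine (Fintype.card_subtype_le _).trans ?_
        rw [Fintype.card_fin]
      calc Fintype.card ι * (2 * K) ≤ Lc * (2 * K) := Nat.mul_le_mul_right _ this
        _ = 2 * K * Lc := by ring
  refine ⟨M.det, ?_, hdegM, ?_⟩
  · -- nonvanishing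
    intro hM0
    have h1 : MvPolynomial.aeval ![(X : ℂ[X]) ^ K, X] M.det = 0 := by rw [hM0, map_zero]
    rw [AlgHom.map_det] at h1
    have h2 := ze2a_coeff_det ((MvPolynomial.aeval ![(X : ℂ[X]) ^ K, X]).mapMatrix M)
      (fun l => K * ((j0 l).1 : ℕ) + ((j0 l).2 : ℕ)) (fun i l => by
        rw [AlgHom.mapMatrix_apply, Matrix.map_apply]
        simp only [M, Matrix.of_apply, map_mul, ze2a_P_map]
        rw [MvPolynomial.algHom_C, Polynomial.algebraMap_eq]
        refine (Polynomial.natDegree_C_mul_le _ _).trans ?_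
        exact (ze2a_lead (c l.1) _ _ (ze2a_inj K) (fun j => (ze2a_mono K hK _ _ j).1)
          (fun j => (ze2a_mono K hK _ _ j).2) (j0 l) (hj0' l)).1)
    rw [h1, Polynomial.coeff_zero] at h2
    have h3 : (Matrix.of (fun i l : ι => (((MvPolynomial.aeval ![(X : ℂ[X]) ^ K, X]).mapMatrix M) i l).coeff
        (K * ((j0 l).1 : ℕ) + ((j0 l).2 : ℕ)))) =
        Matrix.of (fun i l : ι => (c l.1 (j0 l)) * (Matrix.of (fun i l : ι => η (r i).1 ^ (l.1 : ℕ))) i l) := by
      ext i l
      simp only [Matrix.of_apply]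
      rw [AlgHom.mapMatrix_apply, Matrix.map_apply]
      simp only [M, Matrix.of_apply, map_mul, ze2a_P_map]
      rw [MvPolynomial.algHom_C, Polynomial.algebraMap_eq, Polynomial.coeff_C_mul]
      rw [(ze2a_lead (c l.1) _ _ (ze2a_inj K) (fun j => (ze2a_mono K hK _ _ j).1)
          (fun j => (ze2a_mono K hK _ _ j).2) (j0 l) (hj0' l)).2]
      ring
    rw [h3, Matrix.det_mul_row] at h2
    rcases mul_eq_zero.mp h2.symm with h4 | h4
    · rw [Finset.prod_eq_zero_iff] at h4
      obtain ⟨l, _, hl⟩ := h4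
      exact hj0 l hl
    · exact hr h4
  · -- vanishing
    intro q hq
    rw [RingHom.map_det]
    by_contra hne
    have hy : (fun l : ι => η q ^ (l.1 : ℕ)) = 0 := by
      refine Matrix.eq_zero_of_mulVec_eq_zero hne ?_
      funext i
      simp only [Matrix.mulVec, dotProduct, RingHom.mapMatrix_apply, Matrix.map_apply,
        Pi.zero_apply, M, Matrix.of_apply, map_mul, MvPolynomial.eval_C, ze2a_P_eval]
      have h1 := hB (r i).1 (r i).2 q hq
      rw [← h1, ze2a_swap]
      have h2 : ∀ l : Fin Lc, (∑ j : Fin K × Fin K, x (j.1, j.2, l) *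
          (ζ1 ((r i).1 + q) ^ (j.1 : ℕ) * ζ2 ((r i).1 + q) ^ (j.2 : ℕ) *
            η ((r i).1 + q) ^ (l : ℕ))) =
          (η (r i).1 ^ (l : ℕ) * ∑ j : Fin K × Fin K, c l j *
            ((ζ1 q + ζ1 (r i).1) ^ (j.1 : ℕ) * (ζ2 q + ζ2 (r i).1) ^ (j.2 : ℕ))) *
              η q ^ (l : ℕ) := by
        intro l
        rw [Finset.mul_sum, Finset.sum_mul]
        refine Finset.sum_congr rfl (fun j _ => ?_)
        rw [map_add, map_add, hη, add_comm (ζ1 q), add_comm (ζ2 q), mul_pow]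
        simp only [c]
        ring
      rw [Finset.sum_congr rfl (fun l _ => h2 l)]
      refine ze2a_sub c (fun l : Fin Lc => (η (r i).1 ^ (l : ℕ) * ∑ j : Fin K × Fin K, c l j *
            ((ζ1 q + ζ1 (r i).1) ^ (j.1 : ℕ) * (ζ2 q + ζ2 (r i).1) ^ (j.2 : ℕ))) *
              η q ^ (l : ℕ)) (fun l hl => ?_)
      simp only [hl]
      simp
    have hl : Nonempty ι := by
      refine ⟨⟨j'.2.2, ?_⟩⟩
      intro h1
      exact hj' (by simpa [c] using congrFun h1 (j'.1, j'.2.1))
    obtain ⟨l⟩ := hl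
    exact pow_ne_zero _ (hη0 q) (congrFun hy l)

end Pool.Helper99.BK
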